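import Mathlib
import Pool.Agent.Lead.Vis.Rho
import Pool.Agent.Lead.Vis.Sparse

/-! Lattice points visible along a polynomial with two distinct roots have density one. -/

namespace Pool.Agent.Results.MP_543a09_nt.DensityOne

open Polynomial Finset Filter Topology Pool.Agent.Lead.Vis

/-- `(a, h)` is visible along `F`. -/
def Visible (F : ℤ[X]) (a h : ℕ) : Prop :=
  ∃ t : ℚ, (h : ℚ) = t * ((F.eval (a : ℤ) : ℤ) : ℚ) ∧
    IsLeast {u : ℕ | 0 < u ∧ ∃ m : ℕ, 0 < m ∧ t * ((F.eval (u : ℤ) : ℤ) : ℚ) = m} a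

lemma invis (F : ℤ[X]) {a h : ℕ} (ha : 0 < a) (hh : 0 < h) (h0 : 0 < F.eval (a : ℤ))
    (hm : ∀ u : ℕ, u < a → F.eval (u : ℤ) < F.eval (a : ℤ)) (hv : ¬ Visible F a h) :
    ∃ c d : ℕ, 0 < c ∧ c < d ∧ Exc F c d a ∧ d ∣ h ∧ (d : ℤ) ∣ F.eval (a : ℤ) := by
  have q0 : (0 : ℚ) < ((F.eval (a : ℤ) : ℤ) : ℚ) := by exact_mod_cast h0
  have : ∃ u : ℕ, u < a ∧ ∃ m : ℕ, 0 < m ∧
      (h / ((F.eval (a : ℤ) : ℤ) : ℚ)) * ((F.eval (u : ℤ) : ℤ) : ℚ) = m := by
    by_contra hn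
    refine hv ⟨h / ((F.eval (a : ℤ) : ℤ) : ℚ), by field_simp, ⟨ha, h, hh, by field_simp⟩, ?_⟩
    rintro u ⟨-, hu⟩
    by_contra hlt
    exact hn ⟨u, not_le.1 hlt, hu⟩
  obtain ⟨u, hu, m, m0, e⟩ := this
  have e1 : (h : ℤ) * F.eval (u : ℤ) = m * F.eval (a : ℤ) := by
    field_simp at e
    rw [mul_comm (m : ℤ)]
    exact_mod_cast e
  have u0 : 0 < F.eval (u : ℤ) := by
    have : 0 < (h : ℤ) * F.eval (u : ℤ) := by rw [e1]; positivity
    exact (pos_iff_pos_of_mul_pos this).1 (by exact_mod_cast hh)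
  obtain ⟨A, hA⟩ := Int.eq_ofNat_of_zero_le h0.le
  obtain ⟨U, hU⟩ := Int.eq_ofNat_of_zero_le u0.le
  have lt := hm u hu
  rw [hA, hU] at e1 lt
  rw [hU] at u0
  obtain ⟨g, c, d, g0, hcd, rfl, rfl⟩ : ∃ g c d : ℕ, 0 < g ∧ c.Coprime d ∧ U = c * g ∧ A = d * g := by
    obtain ⟨g, c, d, h1, h2, h3, h4⟩ := Nat.exists_coprime' (m := U) (n := A)
      (Nat.gcd_pos_of_pos_left _ (by exact_mod_cast u0))
    exact ⟨g, c, d, h1, h2, h3, h4⟩
  have e2 : h * c = m * d := by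
    have : h * (c * g) = m * (d * g) := by exact_mod_cast e1
    exact Nat.eq_of_mul_eq_mul_right g0 (by linarith)
  have lt2 : c * g < d * g := by exact_mod_cast lt
  have u1 : 0 < c * g := by exact_mod_cast u0
  refine ⟨c, d, Nat.pos_of_mul_pos_right u1, lt_of_mul_lt_mul_right lt2 g0.le,
    ⟨u, hu, by rw [hA, hU]; push_cast; ring⟩,
    hcd.symm.dvd_of_dvd_mul_right ⟨m, by linarith⟩, by rw [hA]; push_cast; exact dvd_mul_right _ _⟩

open Classical in
lemma count (F : ℤ[X]) (a0 : ℕ) (h0 : ∀ a ≥ a0, 0 < F.eval (a : ℤ) ∧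
    ∀ u : ℕ, u < a → F.eval (u : ℤ) < F.eval (a : ℤ)) (D N : ℕ) :
    ((((Icc 1 N ×ˢ Icc 1 N).filter fun p : ℕ × ℕ => ¬ Visible F p.1 p.2).card : ℕ) : ℝ) ≤
      (a0 + ∑ q ∈ (range D ×ˢ range D).filter (fun q => 0 < q.1 ∧ q.1 < q.2),
        (((Icc 1 N).filter (Exc F q.1 q.2)).card : ℝ)) * N +
      2 * N ^ 2 * ∑ d ∈ Icc D N, ff F d := by
  set Q := (range D ×ˢ range D).filter (fun q => 0 < q.1 ∧ q.1 < q.2) with hQ
  have sub : ((Icc 1 N ×ˢ Icc 1 N).filter fun p : ℕ × ℕ => ¬ Visible F p.1 p.2) ⊆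
      ((range a0 ∪ Q.biUnion fun q => (Icc 1 N).filter (Exc F q.1 q.2)) ×ˢ Icc 1 N) ∪
      ((Icc D N).filter (0 < ·)).biUnion fun d =>
        ((Icc 1 N).filter fun a : ℕ => (d : ℤ) ∣ F.eval (a : ℤ)) ×ˢ ((Ioc 0 N).filter (d ∣ ·)) := by
    rintro ⟨a, h⟩ hp
    simp only [mem_filter, mem_product, mem_Icc] at hp
    obtain ⟨⟨⟨a1, aN⟩, h1, hN⟩, hv⟩ := hp
    simp only [mem_union, mem_product, mem_range, mem_biUnion, mem_filter, mem_Icc, mem_Ioc]
    by_cases e : a < a0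
    · exact Or.inl ⟨Or.inl e, h1, hN⟩
    obtain ⟨c, d, c0, cd, ex, dh, dF⟩ := invis F a1 h1 (h0 a (not_lt.1 e)).1 (h0 a (not_lt.1 e)).2 hv
    by_cases e2 : d < D
    · refine Or.inl ⟨Or.inr ⟨(c, d), ?_, ⟨a1, aN⟩, ex⟩, h1, hN⟩
      simp only [hQ, mem_filter, mem_product, mem_range]
      exact ⟨⟨cd.trans e2, e2⟩, c0, cd⟩
    · exact Or.inr ⟨d, ⟨⟨not_lt.1 e2, (Nat.le_of_dvd h1 dh).trans hN⟩, by omega⟩,
        ⟨⟨a1, aN⟩, dF⟩, ⟨h1, hN⟩, dh⟩
  have c1 := (card_le_card sub).trans ((card_union_le _ _).trans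
    (add_le_add (le_of_eq (card_product _ _)) card_biUnion_le))
  have c2 : (range a0 ∪ Q.biUnion fun q => (Icc 1 N).filter (Exc F q.1 q.2)).card ≤
      a0 + ∑ q ∈ Q, ((Icc 1 N).filter (Exc F q.1 q.2)).card :=
    (card_union_le _ _).trans (add_le_add (card_range _).le card_biUnion_le)
  have c3 := c1.trans (add_le_add (Nat.mul_le_mul_right _ c2) le_rfl)
  rw [Nat.card_Icc, Nat.add_sub_cancel] at c3
  refine (Nat.cast_le.2 c3).trans ?_
  push_cast
  gcongr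
  rw [mul_sum]
  refine le_trans ?_ (sum_le_sum_of_subset_of_nonneg (filter_subset (0 < ·) _)
    fun d _ _ => mul_nonneg (by positivity) (ff_nonneg F d))
  refine sum_le_sum fun d hd => ?_
  simp only [mem_filter, mem_Icc] at hd
  obtain ⟨⟨-, dN⟩, d0⟩ := hd
  have d0' : (0 : ℝ) < d := by exact_mod_cast d0
  have dN' : (d : ℝ) ≤ N := by exact_mod_cast dN
  rw [card_product, Nat.Ioc_filter_dvd_card_eq_div]
  have k1 : ((((Icc 1 N).filter fun a : ℕ => (d : ℤ) ∣ F.eval (a : ℤ)).card : ℕ) : ℝ) ≤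
      rho F d * ((N / d : ℕ) + 1) := by exact_mod_cast card_dvd F d0.ne' N
  have k2 : ((N / d : ℕ) : ℝ) ≤ N / d := Nat.cast_div_le
  have k3 : (1 : ℝ) ≤ N / d := (one_le_div d0').2 dN'
  rw [Nat.cast_mul]
  calc _ ≤ (rho F d * (N / d + N / d)) * (N / d : ℝ) := by
        gcongr
        refine k1.trans ?_
        gcongr
    _ = _ := by unfold ff; field_simp; ring

open Classical in
theorem result (F : ℤ[X]) (hl : 0 < F.leadingCoeff)
    (h2 : ∃ z w : ℂ, z ≠ w ∧ aeval z F = 0 ∧ aeval w F = 0) :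
    Tendsto (fun N : ℕ =>
      ((((Icc 1 N ×ˢ Icc 1 N).filter fun p : ℕ × ℕ => Visible F p.1 p.2).card : ℕ) : ℝ) /
        (N : ℝ) ^ 2) atTop (𝓝 1) := by
  obtain ⟨z, w, hzw, hz, hw⟩ := h2
  have F0 : F ≠ 0 := by rintro rfl; simp at hl
  have hk : 2 ≤ F.natDegree := by
    have G0 : F.map (algebraMap ℤ ℂ) ≠ 0 :=
      (Polynomial.map_ne_zero_iff (Int.cast_injective (α := ℂ))).2 F0
    have : ({z, w} : Finset ℂ) ⊆ (F.map (algebraMap ℤ ℂ)).roots.toFinset := by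
      intro x hx
      rw [Multiset.mem_toFinset, mem_roots G0, IsRoot.def, eval_map, ← aeval_def]
      rcases mem_insert.1 hx with rfl | hx
      · exact hz
      · rw [mem_singleton.1 hx]; exact hw
    have h := card_le_card this
    rw [card_pair hzw] at h
    exact h.trans ((Multiset.toFinset_card_le _).trans ((card_roots' _).trans natDegree_map_le))
  obtain ⟨a0, h0⟩ := eventually_atTop.1 (mono_ev F hl hk)
  have hs := summable_ff F hl (by omega)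
  have main : Tendsto (fun N : ℕ =>
      ((((Icc 1 N ×ˢ Icc 1 N).filter fun p : ℕ × ℕ => ¬ Visible F p.1 p.2).card : ℕ) : ℝ) /
        (N : ℝ) ^ 2) atTop (𝓝 0) := by
    refine tendsto_order.2 ⟨fun b hb => Eventually.of_forall fun N => hb.trans_le (by positivity),
      fun ε hε => ?_⟩
    obtain ⟨D, hD⟩ := ((tendsto_sum_nat_add (ff F)).eventually
      (gt_mem_nhds (show (0 : ℝ) < ε / 4 by positivity))).exists
    have tail : ∀ N, ∑ d ∈ Icc D N, ff F d < ε / 4 := by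
      intro N
      refine lt_of_le_of_lt ?_ hD
      rw [← Finset.Ico_add_one_right_eq_Icc, sum_Ico_eq_sum_range]
      simp only [add_comm D]
      exact ((summable_nat_add_iff D).2 hs).sum_le_tsum _ fun _ _ => ff_nonneg _ _
    set Q := (range D ×ˢ range D).filter (fun q => 0 < q.1 ∧ q.1 < q.2) with hQ
    have t1 : Tendsto (fun N : ℕ => (a0 : ℝ) / N +
        ∑ q ∈ Q, (((Icc 1 N).filter (Exc F q.1 q.2)).card : ℝ) / N) atTop
        (𝓝 (0 + ∑ q ∈ Q, 0)) :=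
      (tendsto_const_div_atTop_nhds_zero_nat _).add (tendsto_finsetSum _ fun q hq =>
        sparse _ fun g hg => gap F hl hk hzw hz hw (mem_filter.1 hq).2.1 (mem_filter.1 hq).2.2 hg)
    rw [sum_const_zero, add_zero] at t1
    filter_upwards [t1.eventually (gt_mem_nhds (show (0 : ℝ) < ε / 2 by positivity)),
      eventually_gt_atTop 0] with N h1 h2
    have N0 : (0 : ℝ) < N := by exact_mod_cast h2
    rw [← sum_div, ← add_div, div_lt_iff₀ N0] at h1
    rw [div_lt_iff₀ (by positivity)]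
    refine (count F a0 h0 D N).trans_lt ?_
    have := mul_lt_mul_of_pos_right h1 N0
    have := mul_lt_mul_of_pos_left (tail N) (show (0 : ℝ) < 2 * N ^ 2 by positivity)
    nlinarith
  have := main.const_sub 1
  rw [sub_zero] at this
  refine this.congr' ?_
  filter_upwards [eventually_gt_atTop 0] with N h2
  have N0 : (0 : ℝ) < N := by exact_mod_cast h2
  have e := card_filter_add_card_filter_not (s := Icc 1 N ×ˢ Icc 1 N)
    (fun p : ℕ × ℕ => Visible F p.1 p.2)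
  rw [card_product, Nat.card_Icc, Nat.add_sub_cancel] at e
  have e' := congrArg (Nat.cast (R := ℝ)) e
  push_cast at e'
  field_simp
  linarith

end Pool.Agent.Results.MP_543a09_nt.DensityOne
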